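import Pool.Agent.W_bb8127_h82.Cube

/-!
# Families of pairwise conflicting boxes
-/

set_option autoImplicit false
set_option linter.unusedSectionVars false

namespace Pool.Agent.W_bb8127_h82

open Finset

variable {Q : Type*} [Fintype Q] [DecidableEq Q]

/-- The sign vectors that agree with `s` on `J`. -/
def box (J : Finset Q) (s : Q → Bool) : Finset (Q → Bool) :=
  Finset.univ.filter (fun σ => ∀ h ∈ J, σ h = s h)

theorem mem_box {J : Finset Q} {s σ : Q → Bool} : σ ∈ box J s ↔ ∀ h ∈ J, σ h = s h := by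
  unfold box
  simp

theorem card_box (J : Finset Q) (s : Q → Bool) :
    2 ^ J.card * (box J s).card = 2 ^ Fintype.card Q := by
  have h1 : box J s = Fintype.piFinset (fun h => if h ∈ J then {s h} else Finset.univ) := by
    ext σ
    rw [mem_box, Fintype.mem_piFinset]
    refine forall_congr' fun h => ?_
    by_cases hh : h ∈ J <;> simp [hh]
  have h2 : ∀ h, (if h ∈ J then ({s h} : Finset Bool) else Finset.univ).card =
      if h ∈ J then 1 else 2 := by
    intro h
    split_ifs <;> simp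
  rw [h1, Fintype.card_piFinset]
  simp only [h2]
  have h3 : (2 : ℕ) ^ J.card = ∏ h, if h ∈ J then 2 else 1 := by
    rw [Finset.prod_ite_mem]
    simp
  rw [h3, ← Finset.prod_mul_distrib]
  have h4 : ∀ h, (if h ∈ J then 2 else 1) * (if h ∈ J then 1 else 2) = 2 := by
    intro h
    split_ifs <;> rfl
  simp [h4]

theorem sum_box (J : Finset Q) (s : Q → Bool) (T : Finset Q) :
    (2 : ℤ) ^ J.card * ∑ σ ∈ box J s, chi T σ =
      if T ⊆ J then 2 ^ Fintype.card Q * chi T s else 0 := by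
  split_ifs with hT
  · have h1 : ∀ σ ∈ box J s, chi T σ = chi T s := fun σ hσ =>
      Finset.prod_congr rfl fun h hh => by rw [mem_box.1 hσ h (hT hh)]
    rw [Finset.sum_congr rfl h1, Finset.sum_const, nsmul_eq_mul, ← mul_assoc]
    congr 1
    exact_mod_cast card_box J s
  · obtain ⟨h, h1, h2⟩ := Finset.not_subset.1 hT
    rw [sum_chi_eq_zero h1, mul_zero]
    intro σ hσ
    rw [mem_box] at hσ ⊢
    intro i hi
    rw [flips_apply_notMem, hσ i hi]
    rw [Finset.mem_singleton]
    rintro rfl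
    exact h2 hi

variable {ι : Type*} [Fintype ι] [DecidableEq ι]

/-- The sign vectors in none of the boxes. -/
def rest (J : ι → Finset Q) (s : ι → Q → Bool) : Finset (Q → Bool) :=
  Finset.univ.filter (fun σ => ∀ i, σ ∉ box (J i) (s i))

theorem mem_rest {J : ι → Finset Q} {s : ι → Q → Bool} {σ : Q → Bool} :
    σ ∈ rest J s ↔ ∀ i, ¬ ∀ h ∈ J i, σ h = s i h := by
  unfold rest
  simp [mem_box]

theorem sum_rest (J : ι → Finset Q) (s : ι → Q → Bool)
    (hc : ∀ i j, i ≠ j → ∃ h, h ∈ J i ∧ h ∈ J j ∧ s i h ≠ s j h) (f : (Q → Bool) → ℤ) :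
    ∑ σ ∈ rest J s, f σ = ∑ σ, f σ - ∑ i, ∑ σ ∈ box (J i) (s i), f σ := by
  have h1 : Finset.univ = rest J s ∪ Finset.univ.biUnion (fun i => box (J i) (s i)) := by
    ext σ
    simp only [rest, Finset.mem_univ, Finset.mem_union, Finset.mem_filter, true_and,
      Finset.mem_biUnion, true_iff]
    by_cases h : ∀ i, σ ∉ box (J i) (s i)
    · exact Or.inl h
    · push Not at h
      exact Or.inr h
  have h2 : Disjoint (rest J s) (Finset.univ.biUnion (fun i => box (J i) (s i))) := by
    rw [Finset.disjoint_left]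
    intro σ hσ h3
    obtain ⟨i, _, hi⟩ := Finset.mem_biUnion.1 h3
    exact (Finset.mem_filter.1 hσ).2 i hi
  have h3 : ∑ σ, f σ = ∑ σ ∈ rest J s, f σ + ∑ i, ∑ σ ∈ box (J i) (s i), f σ := by
    conv_lhs => rw [h1]
    rw [Finset.sum_union h2, Finset.sum_biUnion]
    intro i _ j _ hij
    rw [Function.onFun, Finset.disjoint_left]
    intro σ hi hj
    obtain ⟨h, hi', hj', hne⟩ := hc i j hij
    exact hne (by rw [← mem_box.1 hi h hi', mem_box.1 hj h hj'])
  rw [h3]
  ring

theorem gran_rest (k : ℕ) (J : ι → Finset Q) (s : ι → Q → Bool) (hk : ∀ i, (J i).card ≤ k)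
    (hc : ∀ i j, i ≠ j → ∃ h, h ∈ J i ∧ h ∈ J j ∧ s i h ≠ s j h) : Gran k (rest J s) := by
  intro T
  rw [sum_rest J s hc, mul_sub]
  refine dvd_sub ?_ ?_
  · refine dvd_mul_of_dvd_right ?_ _
    by_cases hT : T = ∅
    · subst hT
      simp [chi_empty]
    · obtain ⟨h, hh⟩ := Finset.nonempty_iff_ne_empty.2 hT
      rw [sum_chi_eq_zero hh _ fun σ _ => Finset.mem_univ _]
      exact dvd_zero _
  · rw [Finset.mul_sum]
    refine Finset.dvd_sum fun i _ => ?_
    have h1 : (2 : ℤ) ^ k = 2 ^ (k - (J i).card) * 2 ^ (J i).card := by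
      rw [← pow_add, Nat.sub_add_cancel (hk i)]
    rw [h1, mul_assoc, sum_box]
    refine dvd_mul_of_dvd_right ?_ _
    split_ifs
    · exact dvd_mul_right _ _
    · exact dvd_zero _

/-- Pairwise conflicting boxes of codimension at most `k` whose complement contains full faces in
all sets of at most `d` directions: there are at most `2 ^ k - (d + 1)` of them. -/
theorem card_boxes (k d : ℕ) [Nonempty ι] (J : ι → Finset Q) (s : ι → Q → Bool)
    (hk : ∀ i, (J i).card ≤ k)
    (hc : ∀ i j, i ≠ j → ∃ h, h ∈ J i ∧ h ∈ J j ∧ s i h ≠ s j h)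
    (hF : Faces d (rest J s)) : Fintype.card ι + (d + 1) ≤ 2 ^ k := by
  have hU : rest J s ≠ Finset.univ := by
    intro h
    have i : ι := Classical.arbitrary ι
    have h1 : s i ∈ rest J s := by rw [h]; exact Finset.mem_univ _
    exact (Finset.mem_filter.1 h1).2 i (mem_box.2 fun _ _ => rfl)
  have h1 := density k d _ (gran_rest k J s hk hc) hF hU
  have h2 := sum_rest J s hc (fun _ => 1)
  simp only [Finset.sum_const, nsmul_eq_mul, mul_one] at h2
  have h3 : ∀ i, (2 : ℤ) ^ Fintype.card Q ≤ 2 ^ k * (box (J i) (s i)).card := by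
    intro i
    have h4 : (2 : ℤ) ^ k = 2 ^ (k - (J i).card) * 2 ^ (J i).card := by
      rw [← pow_add, Nat.sub_add_cancel (hk i)]
    have h5 : (2 : ℤ) ^ (J i).card * (box (J i) (s i)).card = 2 ^ Fintype.card Q := by
      exact_mod_cast card_box (J i) (s i)
    rw [h4, mul_assoc, h5]
    have h6 : (1 : ℤ) ≤ 2 ^ (k - (J i).card) := one_le_pow₀ (by norm_num)
    have h7 : (0 : ℤ) < 2 ^ Fintype.card Q := by positivity
    nlinarith
  have h4 : (Fintype.card ι : ℤ) * 2 ^ Fintype.card Q ≤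
      2 ^ k * ∑ i, ((box (J i) (s i)).card : ℤ) := by
    rw [Finset.mul_sum]
    calc (Fintype.card ι : ℤ) * 2 ^ Fintype.card Q
        = ∑ _i : ι, (2 : ℤ) ^ Fintype.card Q := by simp
      _ ≤ _ := Finset.sum_le_sum fun i _ => h3 i
  have h5 : ((Finset.univ : Finset (Q → Bool)).card : ℤ) = 2 ^ Fintype.card Q := by simp
  have h6 : (2 : ℤ) ^ Fintype.card Q * (d + 1) ≤ 2 ^ k * (rest J s).card := by exact_mod_cast h1
  rw [h2, h5, mul_sub] at h6
  have h7 : (2 : ℤ) ^ Fintype.card Q * (Fintype.card ι + (d + 1)) ≤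
      2 ^ Fintype.card Q * 2 ^ k := by nlinarith
  have h8 : ((Fintype.card ι : ℤ) + (d + 1)) ≤ 2 ^ k := le_of_mul_le_mul_left h7 (by positivity)
  exact_mod_cast h8

end Pool.Agent.W_bb8127_h82
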