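import Mathlib

/-!
# Sets of sign vectors with granular Fourier coefficients and with many full faces
-/

set_option autoImplicit false
set_option linter.unusedSectionVars false

namespace Pool.Agent.W_bb8127_h82

open Finset

variable {Q : Type*} [Fintype Q] [DecidableEq Q]

/-- The sign of a truth value. -/
def sg (b : Bool) : ℤ := if b then 1 else -1

/-- The character of the cube belonging to `T`. -/
def chi (T : Finset Q) (σ : Q → Bool) : ℤ := ∏ h ∈ T, sg (σ h)

/-- Flip the coordinates in `E`. -/
def flips (E : Finset Q) (σ : Q → Bool) : Q → Bool := fun h => if h ∈ E then !σ h else σ h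

theorem sg_not (b : Bool) : sg (!b) = -sg b := by cases b <;> rfl

theorem sg_mul_self (b : Bool) : sg b * sg b = 1 := by cases b <;> rfl

theorem sg_mul_eq {a b : Bool} (h : a ≠ b) : sg a * sg b = -1 := by
  cases a <;> cases b <;> simp_all [sg]

theorem chi_mul_self (T : Finset Q) (σ : Q → Bool) : chi T σ * chi T σ = 1 := by
  unfold chi
  rw [← Finset.prod_mul_distrib]
  exact Finset.prod_eq_one fun h _ => sg_mul_self _

theorem chi_eq_or (T : Finset Q) (σ : Q → Bool) : chi T σ = 1 ∨ chi T σ = -1 :=
  mul_self_eq_one_iff.1 (chi_mul_self T σ)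

theorem chi_empty (σ : Q → Bool) : chi ∅ σ = 1 := Finset.prod_empty

theorem flips_apply_mem {E : Finset Q} {h : Q} (hh : h ∈ E) (σ : Q → Bool) :
    flips E σ h = !σ h := if_pos hh

theorem flips_apply_notMem {E : Finset Q} {h : Q} (hh : h ∉ E) (σ : Q → Bool) :
    flips E σ h = σ h := if_neg hh

theorem flips_flips_self (E : Finset Q) (σ : Q → Bool) : flips E (flips E σ) = σ := by
  funext h
  unfold flips
  split_ifs <;> simp

theorem flips_flips (E F : Finset Q) (σ : Q → Bool) :
    flips E (flips F σ) = flips (symmDiff E F) σ := by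
  funext h
  unfold flips
  by_cases h1 : h ∈ E <;> by_cases h2 : h ∈ F <;> simp [Finset.mem_symmDiff, h1, h2]

theorem chi_flip_mem {T : Finset Q} {h : Q} (hh : h ∈ T) (σ : Q → Bool) :
    chi T (flips {h} σ) = -chi T σ := by
  unfold chi
  rw [← Finset.mul_prod_erase _ _ hh, ← Finset.mul_prod_erase T (fun h => sg (σ h)) hh,
    flips_apply_mem (Finset.mem_singleton_self h), sg_not, neg_mul]
  congr 2
  refine Finset.prod_congr rfl fun i hi => ?_
  rw [flips_apply_notMem]
  rw [Finset.mem_singleton]
  exact Finset.ne_of_mem_erase hi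

theorem chi_flip_notMem {T : Finset Q} {h : Q} (hh : h ∉ T) (σ : Q → Bool) :
    chi T (flips {h} σ) = chi T σ := by
  unfold chi
  refine Finset.prod_congr rfl fun i hi => ?_
  rw [flips_apply_notMem]
  rw [Finset.mem_singleton]
  rintro rfl
  exact hh hi

/-- `chi` turns symmetric differences into products. -/
theorem chi_symmDiff (S T : Finset Q) (σ : Q → Bool) :
    chi (symmDiff S T) σ = chi S σ * chi T σ := by
  have h1 : chi S σ = chi (S \ T) σ * chi (S ∩ T) σ := by
    unfold chi
    rw [← Finset.prod_union (Finset.disjoint_sdiff_inter S T), Finset.sdiff_union_inter]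
  have h2 : chi T σ = chi (T \ S) σ * chi (S ∩ T) σ := by
    unfold chi
    rw [Finset.inter_comm, ← Finset.prod_union (Finset.disjoint_sdiff_inter T S),
      Finset.sdiff_union_inter]
  have h3 : chi (symmDiff S T) σ = chi (S \ T) σ * chi (T \ S) σ := by
    unfold chi
    rw [← Finset.prod_union disjoint_sdiff_sdiff]
    rfl
  have h4 := chi_mul_self (S ∩ T) σ
  rw [h1, h2, h3]
  linear_combination -(chi (S \ T) σ * chi (T \ S) σ) * h4

/-- The sum of a nontrivial character over a set invariant under a flip. -/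
theorem sum_chi_eq_zero {T : Finset Q} {h : Q} (hh : h ∈ T) (B : Finset (Q → Bool))
    (hB : ∀ σ ∈ B, flips {h} σ ∈ B) : ∑ σ ∈ B, chi T σ = 0 := by
  refine Finset.sum_involution (fun σ _ => flips {h} σ) (fun σ _ => ?_) (fun σ _ _ hc => ?_)
    (fun σ hσ => hB σ hσ) (fun σ _ => flips_flips_self _ _)
  · rw [chi_flip_mem hh, add_neg_cancel]
  · have := congrFun hc h
    rw [flips_apply_mem (Finset.mem_singleton_self h)] at this
    cases hs : σ h <;> simp [hs] at this

/-- Fourier inversion. -/
theorem inversion (F : (Q → Bool) → ℤ) (z : Q → Bool) :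
    ∑ T : Finset Q, chi T z * ∑ σ, F σ * chi T σ = 2 ^ Fintype.card Q * F z := by
  have h1 : ∀ T : Finset Q, chi T z * ∑ σ, F σ * chi T σ =
      ∑ σ, F σ * ∏ h ∈ T, (sg (σ h) * sg (z h)) := by
    intro T
    rw [Finset.mul_sum]
    refine Finset.sum_congr rfl fun σ _ => ?_
    rw [Finset.prod_mul_distrib]
    unfold chi
    ring
  simp only [h1]
  rw [Finset.sum_comm]
  have h2 : ∀ σ : Q → Bool, ∑ T : Finset Q, F σ * ∏ h ∈ T, (sg (σ h) * sg (z h)) =
      if σ = z then 2 ^ Fintype.card Q * F z else 0 := by
    intro σ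
    rw [← Finset.mul_sum, ← Finset.powerset_univ, ← Finset.prod_one_add]
    split_ifs with h
    · rw [h]
      have : ∀ i : Q, 1 + sg (z i) * sg (z i) = 2 := fun i => by rw [sg_mul_self]; rfl
      simp only [this, Finset.prod_const, Finset.card_univ]
      ring
    · obtain ⟨i, hi⟩ := Function.ne_iff.1 h
      rw [Finset.prod_eq_zero (Finset.mem_univ i), mul_zero]
      rw [sg_mul_eq hi]
      rfl
  simp only [h2]
  rw [Finset.sum_ite_eq' Finset.univ z]
  simp

/-- All Fourier coefficients of (the indicator function of) `U` are multiples of `2 ^ (-k)`. -/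
def Gran (k : ℕ) (U : Finset (Q → Bool)) : Prop :=
  ∀ T : Finset Q, (2 : ℤ) ^ Fintype.card Q ∣ 2 ^ k * ∑ σ ∈ U, chi T σ

/-- In every set of at most `d` directions `U` contains a full face of the cube. -/
def Faces (d : ℕ) (U : Finset (Q → Bool)) : Prop :=
  ∀ D : Finset Q, D.card ≤ d → ∃ σ, ∀ E ⊆ D, flips E σ ∈ U

/-- The set `U` restricted to the half-space `chi A = a` and spread in the direction `h`. -/
def half (U : Finset (Q → Bool)) (A : Finset Q) (a : ℤ) (h : Q) : Finset (Q → Bool) :=
  Finset.univ.filter (fun σ => (if chi A σ = a then σ else flips {h} σ) ∈ U)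

theorem sum_half (U : Finset (Q → Bool)) {A : Finset Q} {a : ℤ} {h : Q} (hh : h ∈ A)
    (ha : a = 1 ∨ a = -1) (T : Finset Q) :
    ∑ σ ∈ half U A a h, chi T σ =
      if h ∈ T then 0 else ∑ σ ∈ U, chi T σ + a * ∑ σ ∈ U, chi (symmDiff T A) σ := by
  have key : ∀ σ, flips {h} σ ∈ half U A a h ↔ σ ∈ half U A a h := by
    intro σ
    unfold half
    rw [Finset.mem_filter, Finset.mem_filter, chi_flip_mem hh, flips_flips_self]
    simp only [Finset.mem_univ, true_and]
    rcases chi_eq_or A σ with h1 | h1 <;> rcases ha with h2 | h2 <;> rw [h1, h2] <;> norm_num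
  split_ifs with hT
  · exact sum_chi_eq_zero hT _ fun σ hσ => (key σ).2 hσ
  · have h1 : ∑ σ ∈ half U A a h, chi T σ =
        ∑ σ ∈ U.filter (fun σ => chi A σ = a), (2 * chi T σ) := by
      have e1 : half U A a h = (U.filter (fun σ => chi A σ = a)) ∪
          (U.filter (fun σ => chi A σ = a)).image (flips {h}) := by
        ext σ
        unfold half
        simp only [Finset.mem_filter, Finset.mem_univ, true_and, Finset.mem_union,
          Finset.mem_image]
        constructor
        · intro hσ
          split_ifs at hσ with h2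
          · exact Or.inl ⟨hσ, h2⟩
          · refine Or.inr ⟨flips {h} σ, ⟨hσ, ?_⟩, flips_flips_self _ _⟩
            rw [chi_flip_mem hh]
            rcases chi_eq_or A σ with h3 | h3 <;> rcases ha with h4 | h4
            · exact absurd (h3.trans h4.symm) h2
            · rw [h3, h4]
            · rw [h3, h4]; norm_num
            · exact absurd (h3.trans h4.symm) h2
        · rintro (⟨h2, h3⟩ | ⟨τ, ⟨h2, h3⟩, rfl⟩)
          · rw [if_pos h3]; exact h2
          · rw [chi_flip_mem hh, h3, flips_flips_self]
            rw [if_neg (by rcases ha with h4 | h4 <;> rw [h4] <;> norm_num)]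
            exact h2
      rw [e1, Finset.sum_union, Finset.sum_image, ← Finset.sum_add_distrib]
      · refine Finset.sum_congr rfl fun σ _ => ?_
        rw [chi_flip_notMem hT]
        ring
      · intro σ _ τ _ hst
        have := congrArg (flips {h}) hst
        rwa [flips_flips_self, flips_flips_self] at this
      · rw [Finset.disjoint_left]
        intro σ h2 h3
        obtain ⟨τ, h4, rfl⟩ := Finset.mem_image.1 h3
        have h5 := (Finset.mem_filter.1 h2).2
        have h6 := (Finset.mem_filter.1 h4).2
        rw [chi_flip_mem hh, h6] at h5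
        rcases ha with h7 | h7 <;> rw [h7] at h5 <;> norm_num at h5
    rw [h1, Finset.sum_filter, Finset.mul_sum, ← Finset.sum_add_distrib]
    refine Finset.sum_congr rfl fun σ _ => ?_
    rw [chi_symmDiff]
    rcases chi_eq_or A σ with h3 | h3 <;> rcases ha with h4 | h4 <;> rw [h3, h4] <;> norm_num <;>
      ring

/-- A proper subset of the cube with granular Fourier coefficients and full faces in all sets of at
most `d` directions has density at least `(d + 1) / 2 ^ k`. -/
theorem density (k d : ℕ) : ∀ U : Finset (Q → Bool), Gran k U → Faces d U → U ≠ Finset.univ →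
    2 ^ Fintype.card Q * (d + 1) ≤ 2 ^ k * U.card := by
  induction d with
  | zero =>
    intro U hG hF _
    obtain ⟨σ, hσ⟩ := hF ∅ (by simp)
    have h1 : 0 < U.card := Finset.card_pos.2 ⟨_, hσ ∅ (Finset.Subset.refl _)⟩
    have h2 := hG ∅
    simp only [chi_empty, Finset.sum_const, nsmul_eq_mul, mul_one] at h2
    have h3 : 2 ^ Fintype.card Q ∣ 2 ^ k * U.card := by exact_mod_cast h2
    simpa using Nat.le_of_dvd (by positivity) h3
  | succ d ih =>
    intro U hG hF hU
    -- a nontrivial Fourier coefficient
    obtain ⟨A, hA, hSA⟩ : ∃ A : Finset Q, A ≠ ∅ ∧ ∑ σ ∈ U, chi A σ ≠ 0 := by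
      by_contra hcon
      push Not at hcon
      obtain ⟨z, hz⟩ : ∃ z, z ∉ U := by
        by_contra h
        push Not at h
        exact hU (Finset.eq_univ_iff_forall.2 h)
      have h1 := inversion (fun σ => if σ ∈ U then 1 else 0) z
      have h2 : ∀ T : Finset Q, ∑ σ, (if σ ∈ U then 1 else 0) * chi T σ = ∑ σ ∈ U, chi T σ := by
        intro T
        simp only [ite_mul, one_mul, zero_mul]
        rw [Finset.sum_ite_mem, Finset.univ_inter]
      simp only [h2, hz, if_false, mul_zero] at h1
      rw [Finset.sum_eq_single ∅ (fun T _ hT => by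
        rw [hcon T (Finset.nonempty_iff_ne_empty.2 hT), mul_zero])
        (fun h => absurd (Finset.mem_univ _) h)] at h1
      simp only [chi_empty, one_mul, Finset.sum_const, nsmul_eq_mul, mul_one, Nat.cast_eq_zero,
        Finset.card_eq_zero] at h1
      obtain ⟨σ, hσ⟩ := hF ∅ (by simp)
      have := hσ ∅ (Finset.Subset.refl _)
      rw [h1] at this
      simp at this
    obtain ⟨h, hh⟩ := Finset.nonempty_iff_ne_empty.2 hA
    -- the sign
    obtain ⟨a, ha, hneg⟩ : ∃ a : ℤ, (a = 1 ∨ a = -1) ∧
        a * ∑ σ ∈ U, chi A σ = -|∑ σ ∈ U, chi A σ| := by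
      rcases lt_or_gt_of_ne hSA with h1 | h1
      · exact ⟨1, Or.inl rfl, by rw [abs_of_neg h1]; ring⟩
      · exact ⟨-1, Or.inr rfl, by rw [abs_of_pos h1]; ring⟩
    have hcard : ((half U A a h).card : ℤ) = U.card - |∑ σ ∈ U, chi A σ| := by
      have h1 := sum_half U hh ha ∅
      have h2 : symmDiff (∅ : Finset Q) A = A := by simp [symmDiff_def]
      rw [h2] at h1
      simp only [chi_empty, Finset.sum_const, nsmul_eq_mul, mul_one, Finset.notMem_empty,
        if_false] at h1
      rw [h1, hneg]
      ring
    have hpos : 0 < |∑ σ ∈ U, chi A σ| := abs_pos.2 hSA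
    have hbig : (2 : ℤ) ^ Fintype.card Q ≤ 2 ^ k * |∑ σ ∈ U, chi A σ| := by
      have h1 : (2 : ℤ) ^ Fintype.card Q ∣ 2 ^ k * |∑ σ ∈ U, chi A σ| := by
        have := hG A
        rcases abs_choice (∑ σ ∈ U, chi A σ) with h2 | h2
        · rw [h2]; exact this
        · rw [h2, mul_neg]; exact (dvd_neg.2 this)
      exact Int.le_of_dvd (by positivity) h1
    have hG' : Gran k (half U A a h) := by
      intro T
      rw [sum_half U hh ha T]
      split_ifs
      · simp
      · rw [mul_add]
        refine dvd_add (hG T) ?_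
        rw [mul_left_comm]
        exact dvd_mul_of_dvd_right (hG _) _
    have hF' : Faces d (half U A a h) := by
      intro D hD
      obtain ⟨σ, hσ⟩ := hF (insert h D) ((Finset.card_insert_le _ _).trans (by omega))
      refine ⟨σ, fun E hE => ?_⟩
      unfold half
      rw [Finset.mem_filter]
      refine ⟨Finset.mem_univ _, ?_⟩
      split_ifs
      · exact hσ E (hE.trans (Finset.subset_insert _ _))
      · rw [flips_flips]
        refine hσ _ fun x hx => ?_
        rcases Finset.mem_symmDiff.1 hx with h1 | h1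
        · rw [Finset.mem_singleton.1 h1.1]; exact Finset.mem_insert_self _ _
        · exact Finset.mem_insert_of_mem (hE h1.1)
    have hU' : half U A a h ≠ Finset.univ := by
      intro hc
      have h1 : U.card ≤ (Finset.univ : Finset (Q → Bool)).card := Finset.card_le_univ _
      rw [hc] at hcard
      have h2 : (U.card : ℤ) ≤ ((Finset.univ : Finset (Q → Bool)).card : ℤ) := by exact_mod_cast h1
      omega
    have h3 := ih _ hG' hF' hU'
    have h4 : (2 : ℤ) ^ Fintype.card Q * (d + 1) ≤ 2 ^ k * (half U A a h).card := by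
      exact_mod_cast h3
    rw [hcard, mul_sub] at h4
    have h5 : (2 : ℤ) ^ Fintype.card Q * (d + 1 + 1) ≤ 2 ^ k * U.card := by nlinarith
    exact_mod_cast h5

end Pool.Agent.W_bb8127_h82
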