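import Pool.Agent.W_bb8127_h82.Boxes

/-!
# Neighborly families of polytopes: geometric part
-/

set_option autoImplicit false

namespace Pool.Agent.W_bb8127_h82

open MeasureTheory Set Module

variable {d : ℕ}

/-- `P` is a bounded intersection of `k` closed half-spaces and has interior points, that is, a
`d`-dimensional convex polytope with at most `k` facets.  (Half-spaces may be repeated.) -/
def PolytopeLE (d k : ℕ) (P : Set (EuclideanSpace ℝ (Fin d))) : Prop :=
  Bornology.IsBounded P ∧ (interior P).Nonempty ∧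
    ∃ (a : Fin k → EuclideanSpace ℝ (Fin d)) (b : Fin k → ℝ), P = {x | ∀ t, inner ℝ (a t) x ≤ b t}

/-- The family is neighborly: the interiors are pairwise disjoint and any two members meet in a set
of positive `(d - 1)`-dimensional (Hausdorff) measure. -/
def Neighborly (d : ℕ) {n : ℕ} (P : Fin n → Set (EuclideanSpace ℝ (Fin d))) : Prop :=
  ∀ i j, i ≠ j → Disjoint (interior (P i)) (interior (P j)) ∧
    0 < Measure.hausdorffMeasure ((d : ℝ) - 1) (P i ∩ P j)

/-- The hyperplane `⟪a, x⟫ = b`. -/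
def pl (a : EuclideanSpace ℝ (Fin d)) (b : ℝ) : Set (EuclideanSpace ℝ (Fin d)) :=
  {x | inner ℝ a x = b}

open scoped RealInnerProductSpace

theorem same_plane {a α : EuclideanSpace ℝ (Fin d)} {b β : ℝ} (ha : a ≠ 0) (hα : α ≠ 0)
    (h : pl a b = pl α β) : ∃ c : ℝ, c ≠ 0 ∧ a = c • α ∧ b = c * β := by
  have hαα : ⟪α, α⟫ ≠ 0 := inner_self_ne_zero.2 hα
  -- a point of the plane
  set x₀ : EuclideanSpace ℝ (Fin d) := (β / ⟪α, α⟫) • α with hx₀
  have h1 : ⟪α, x₀⟫ = β := by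
    rw [hx₀, inner_smul_right]
    field_simp
  have h2 : x₀ ∈ pl a b := by rw [h]; exact h1
  have h2' : ⟪a, x₀⟫ = b := h2
  set c : ℝ := ⟪α, a⟫ / ⟪α, α⟫ with hc
  have h3 : ⟪α, a - c • α⟫ = 0 := by
    rw [inner_sub_right, inner_smul_right, hc]
    field_simp
    ring
  have h4 : x₀ + (a - c • α) ∈ pl a b := by
    rw [h]
    show ⟪α, x₀ + (a - c • α)⟫ = β
    rw [inner_add_right, h1, h3, add_zero]
  have h5 : ⟪a, a - c • α⟫ = 0 := by
    have : ⟪a, x₀ + (a - c • α)⟫ = b := h4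
    rw [inner_add_right, h2'] at this
    linarith
  have h6 : a - c • α = 0 := by
    rw [← inner_self_eq_zero (𝕜 := ℝ), inner_sub_left, h5, inner_smul_left, h3]
    simp
  have h7 : a = c • α := sub_eq_zero.1 h6
  refine ⟨c, ?_, h7, ?_⟩
  · intro hc0
    rw [hc0, zero_smul] at h7
    exact ha h7
  · rw [← h2', h7, inner_smul_left, h1]
    simp

/-- A set with interior points does not lie in a hyperplane. -/
theorem not_subset_plane {P : Set (EuclideanSpace ℝ (Fin d))} (hP : (interior P).Nonempty)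
    {α : EuclideanSpace ℝ (Fin d)} (hα : α ≠ 0) (β : ℝ) : ¬ ∀ x ∈ P, ⟪α, x⟫ = β := by
  intro h
  obtain ⟨x, hx⟩ := hP
  obtain ⟨ε, hε, hb⟩ := Metric.isOpen_iff.1 isOpen_interior x hx
  have hn : 0 < ‖α‖ := norm_pos_iff.2 hα
  have h1 : x + (ε / (2 * ‖α‖)) • α ∈ P := by
    refine interior_subset (hb ?_)
    rw [Metric.mem_ball, dist_eq_norm, add_sub_cancel_left, norm_smul, Real.norm_eq_abs,
      abs_of_pos (by positivity)]
    have : ε / (2 * ‖α‖) * ‖α‖ = ε / 2 := by field_simp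
    rw [this]
    linarith
  have h2 := h _ h1
  rw [inner_add_right, h x (interior_subset hx), inner_smul_right] at h2
  have h3 : 0 < ⟪α, α⟫ := real_inner_self_pos.2 hα
  have h4 : 0 < ε / (2 * ‖α‖) * ⟪α, α⟫ := by positivity
  linarith

/-- An interior point satisfies every nontrivial inequality strictly. -/
theorem strict_of_interior {P : Set (EuclideanSpace ℝ (Fin d))} {x : EuclideanSpace ℝ (Fin d)}
    (hx : x ∈ interior P) {α : EuclideanSpace ℝ (Fin d)} (hα : α ≠ 0) {β : ℝ}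
    (h : ∀ y ∈ P, ⟪α, y⟫ ≤ β) : ⟪α, x⟫ < β := by
  obtain ⟨ε, hε, hb⟩ := Metric.isOpen_iff.1 isOpen_interior x hx
  have hn : 0 < ‖α‖ := norm_pos_iff.2 hα
  have h1 : x + (ε / (2 * ‖α‖)) • α ∈ P := by
    refine interior_subset (hb ?_)
    rw [Metric.mem_ball, dist_eq_norm, add_sub_cancel_left, norm_smul, Real.norm_eq_abs,
      abs_of_pos (by positivity)]
    have : ε / (2 * ‖α‖) * ‖α‖ = ε / 2 := by field_simp
    rw [this]
    linarith
  have h2 := h _ h1
  rw [inner_add_right, inner_smul_right] at h2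
  have h3 : 0 < ⟪α, α⟫ := real_inner_self_pos.2 hα
  have h4 : 0 < ε / (2 * ‖α‖) * ⟪α, α⟫ := by positivity
  linarith

/-- Two different hyperplanes meet in a set of `(d - 1)`-dimensional measure zero. -/
theorem null_inter (hd : 1 ≤ d) {a c : EuclideanSpace ℝ (Fin d)} {b u : ℝ} (ha : a ≠ 0)
    (hc : c ≠ 0) (h : pl a b ≠ pl c u) :
    Measure.hausdorffMeasure ((d : ℝ) - 1) (pl a b ∩ pl c u) = 0 := by
  rcases Set.eq_empty_or_nonempty (pl a b ∩ pl c u) with h0 | ⟨x₀, hx₀⟩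
  · rw [h0, measure_empty]
  -- the vectors are linearly independent
  have hli : LinearIndependent ℝ ![a, c] := by
    rw [LinearIndependent.pair_iff' ha]
    intro r hr
    apply h
    have hr0 : r ≠ 0 := by
      rintro rfl
      rw [zero_smul] at hr
      exact hc hr.symm
    have e1 : ⟪a, x₀⟫ = b := hx₀.1
    have e2 : ⟪c, x₀⟫ = u := hx₀.2
    rw [← hr, inner_smul_left] at e2
    simp only [conj_trivial] at e2
    ext x
    show ⟪a, x⟫ = b ↔ ⟪c, x⟫ = u
    rw [← hr, inner_smul_left]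
    simp only [conj_trivial]
    rw [← e2, e1]
    exact ⟨fun h => by rw [h], fun h => mul_left_cancel₀ hr0 h⟩
  set K : Submodule ℝ (EuclideanSpace ℝ (Fin d)) := Submodule.span ℝ (Set.range ![a, c]) with hK
  have hfK : finrank ℝ K = 2 := by
    rw [hK, finrank_span_eq_card hli]
    simp
  have hfo : finrank ℝ K + finrank ℝ Kᗮ = d := by
    rw [Submodule.finrank_add_finrank_orthogonal, finrank_euclideanSpace, Fintype.card_fin]
  have hsub : pl a b ∩ pl c u ⊆ (fun w : Kᗮ => x₀ + (w : EuclideanSpace ℝ (Fin d))) '' univ := by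
    rintro x ⟨h1, h2⟩
    refine ⟨⟨x - x₀, ?_⟩, mem_univ _, by simp⟩
    rw [Submodule.mem_orthogonal]
    intro y hy
    rw [hK] at hy
    refine Submodule.span_induction (p := fun y _ => ⟪y, x - x₀⟫ = 0) ?_ ?_ ?_ ?_ hy
    · rintro y ⟨t, rfl⟩
      have e1 : ⟪a, x₀⟫ = b := hx₀.1
      have e2 : ⟪c, x₀⟫ = u := hx₀.2
      have e3 : ⟪a, x⟫ = b := h1
      have e4 : ⟪c, x⟫ = u := h2
      fin_cases t
      · show ⟪a, x - x₀⟫ = 0
        rw [inner_sub_right, e1, e3, sub_self]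
      · show ⟪c, x - x₀⟫ = 0
        rw [inner_sub_right, e2, e4, sub_self]
    · simp
    · intro y z _ _ hy hz
      rw [inner_add_left, hy, hz, add_zero]
    · intro r y _ hy
      rw [inner_smul_left, hy, mul_zero]
  have hiso : Isometry (fun w : Kᗮ => x₀ + (w : EuclideanSpace ℝ (Fin d))) := by
    refine Isometry.of_dist_eq fun w w' => ?_
    rw [dist_add_left]
    rfl
  have hdim : dimH (pl a b ∩ pl c u) ≤ finrank ℝ Kᗮ := by
    refine (dimH_mono hsub).trans ?_
    rw [hiso.dimH_image, Real.dimH_univ_eq_finrank]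
  have hlt : dimH (pl a b ∩ pl c u) < ((d - 1 : ℕ) : NNReal) := by
    refine lt_of_le_of_lt hdim ?_
    have : finrank ℝ Kᗮ < d - 1 := by omega
    exact_mod_cast this
  have h2 := hausdorffMeasure_of_dimH_lt hlt
  have h3 : (((d - 1 : ℕ) : NNReal) : ℝ) = (d : ℝ) - 1 := by
    rw [NNReal.coe_natCast, Nat.cast_sub hd, Nat.cast_one]
  rw [h3] at h2
  exact h2

/-- A polyhedron with a recession direction is unbounded. -/
theorem not_bounded {k : ℕ} {a : Fin k → EuclideanSpace ℝ (Fin d)} {b : Fin k → ℝ}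
    {x v : EuclideanSpace ℝ (Fin d)} (hx : ∀ t, ⟪a t, x⟫ ≤ b t) (hv : v ≠ 0)
    (hav : ∀ t, ⟪a t, v⟫ ≤ 0) : ¬ Bornology.IsBounded {x | ∀ t, ⟪a t, x⟫ ≤ b t} := by
  intro hb
  obtain ⟨R, hR⟩ := hb.exists_norm_le
  have hn : 0 < ‖v‖ := norm_pos_iff.2 hv
  have hR0 : 0 ≤ R := (norm_nonneg _).trans (hR x hx)
  have hr : 0 ≤ (R + ‖x‖ + 1) / ‖v‖ := by positivity
  have h1 : x + ((R + ‖x‖ + 1) / ‖v‖) • v ∈ {x | ∀ t, ⟪a t, x⟫ ≤ b t} := by
    intro t
    rw [inner_add_right, inner_smul_right]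
    have := mul_nonneg hr (neg_nonneg.2 (hav t))
    have := hx t
    linarith
  have h2 := hR _ h1
  have h3 : ‖((R + ‖x‖ + 1) / ‖v‖) • v‖ = R + ‖x‖ + 1 := by
    rw [norm_smul, Real.norm_eq_abs, abs_of_nonneg hr]
    field_simp
  have h4 := norm_sub_le (x + ((R + ‖x‖ + 1) / ‖v‖) • v) x
  rw [add_sub_cancel_left, h3] at h4
  linarith

end Pool.Agent.W_bb8127_h82
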