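import Pool.Agent.W_bb8127_h82.Geom

/-!
# The bound for neighborly families of polytopes
-/

set_option autoImplicit false

namespace Pool.Agent.W_bb8127_h82

open MeasureTheory Set Module

variable {d : ℕ}

open scoped RealInnerProductSpace

theorem le_scaled {c β' u' : ℝ} {a' α' x : EuclideanSpace ℝ (Fin d)} (e1 : a' = c • α')
    (e2 : u' = c * β') (h : ⟪a', x⟫ ≤ u') : c * ⟪α', x⟫ ≤ c * β' := by
  rw [e1, e2, inner_smul_left] at h
  simpa using h

theorem ge_scaled {c β' u' : ℝ} {a' α' x : EuclideanSpace ℝ (Fin d)} (e1 : a' = c • α')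
    (e2 : u' = c * β') (h : u' ≤ ⟪a', x⟫) : c * β' ≤ c * ⟪α', x⟫ := by
  rw [e1, e2, inner_smul_left] at h
  simpa using h

theorem le_of_neg_mul {c x y : ℝ} (hc : c < 0) (h : c * x ≤ c * y) : y ≤ x := by
  by_contra h1
  have h2 : x < y := not_le.1 h1
  have h3 := mul_lt_mul_of_neg_left h2 hc
  linarith

/-- The separating hyperplane of two members contains a facet of the first. -/
theorem facet_of_sep (hd : 1 ≤ d) {k : ℕ} {a : Fin k → EuclideanSpace ℝ (Fin d)} {b : Fin k → ℝ}
    {R : Set (EuclideanSpace ℝ (Fin d))} {c : EuclideanSpace ℝ (Fin d)} {u : ℝ} (hc : c ≠ 0)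
    (hP : ∀ x, (∀ t, ⟪a t, x⟫ ≤ b t) → ⟪c, x⟫ ≤ u) (hR : ∀ x ∈ R, u ≤ ⟪c, x⟫)
    (hne : ∃ x, ∀ t, ⟪a t, x⟫ ≤ b t)
    (hpos : 0 < Measure.hausdorffMeasure ((d : ℝ) - 1) ({x | ∀ t, ⟪a t, x⟫ ≤ b t} ∩ R)) :
    ∃ t, a t ≠ 0 ∧ pl (a t) (b t) = pl c u := by
  by_contra hcon
  push Not at hcon
  have hsub : {x | ∀ t, ⟪a t, x⟫ ≤ b t} ∩ R ⊆
      ⋃ t ∈ {t | a t ≠ 0}, (pl (a t) (b t) ∩ pl c u) := by
    rintro x ⟨hx, hxR⟩
    have hxc : ⟪c, x⟫ = u := le_antisymm (hP x hx) (hR x hxR)
    by_contra hx2
    simp only [mem_iUnion, not_exists] at hx2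
    have hst : ∀ t, a t ≠ 0 → ⟪a t, x⟫ < b t := by
      intro t ht
      refine lt_of_le_of_ne (hx t) fun he => hx2 t ht ⟨he, hxc⟩
    -- move in the direction `c`
    have hev : ∀ᶠ r in nhdsWithin (0 : ℝ) (Ioi 0), ∀ t, ⟪a t, x + r • c⟫ ≤ b t := by
      rw [Filter.eventually_all]
      intro t
      by_cases ht : a t = 0
      · refine Filter.Eventually.of_forall fun r => ?_
        rw [ht, inner_zero_left]
        obtain ⟨y, hy⟩ := hne
        have := hy t
        rwa [ht, inner_zero_left] at this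
      · have hcont : Continuous (fun r : ℝ => ⟪a t, x + r • c⟫) := by fun_prop
        have h0 : (fun r : ℝ => ⟪a t, x + r • c⟫) 0 < b t := by simpa using hst t ht
        exact ((hcont.tendsto 0).eventually_lt_const h0).filter_mono nhdsWithin_le_nhds |>.mono
          fun r hr => hr.le
    obtain ⟨r, hr, hr0⟩ := (hev.and self_mem_nhdsWithin).exists
    have h1 := hP _ hr
    rw [inner_add_right, inner_smul_right, hxc] at h1
    have h2 : 0 < ⟪c, c⟫ := real_inner_self_pos.2 hc
    have h3 : 0 < r * ⟪c, c⟫ := mul_pos hr0 h2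
    linarith
  refine hpos.ne' (measure_mono_null hsub ?_)
  refine (measure_biUnion_null_iff (Set.to_countable _)).2 fun t ht => ?_
  exact null_inter hd ht hc (hcon t ht)

/-- **Theorem.**  A neighborly family of `d`-dimensional convex polytopes with at most `k` facets
has at most `2 ^ k - (d + 1)` members. -/
theorem bound (hd : 1 ≤ d) {k n : ℕ} (hn : 0 < n) (P : Fin n → Set (EuclideanSpace ℝ (Fin d)))
    (hP : ∀ i, PolytopeLE d k (P i)) (hN : Neighborly d P) : n + (d + 1) ≤ 2 ^ k := by
  classical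
  choose hbd hint a b hab using hP
  -- the hyperplanes
  let Pl : Finset (Set (EuclideanSpace ℝ (Fin d))) :=
    (Finset.univ.filter (fun q : Fin n × Fin k => a q.1 q.2 ≠ 0)).image
      (fun q => pl (a q.1 q.2) (b q.1 q.2))
  have hrep : ∀ h : Pl, ∃ (α : EuclideanSpace ℝ (Fin d)) (β : ℝ), α ≠ 0 ∧ h.1 = pl α β := by
    rintro ⟨h, hh⟩
    obtain ⟨q, hq, rfl⟩ := Finset.mem_image.1 hh
    exact ⟨_, _, (Finset.mem_filter.1 hq).2, rfl⟩
  choose α β hα hαβ using hrep
  let J : Fin n → Finset Pl := fun i =>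
    Finset.univ.filter (fun h => ∃ t, a i t ≠ 0 ∧ h.1 = pl (a i t) (b i t))
  let s : Fin n → Pl → Bool := fun i h => decide (∀ x ∈ P i, ⟪α h, x⟫ ≤ β h)
  have hJ : ∀ i, (J i).card ≤ k := by
    intro i
    have h1 : ∀ h : Pl, ∃ t : Option (Fin k), h ∈ J i → ∃ t', t = some t' ∧
        h.1 = pl (a i t') (b i t') := by
      intro h
      by_cases hh : h ∈ J i
      · obtain ⟨t, _, ht⟩ := (Finset.mem_filter.1 hh).2
        exact ⟨some t, fun _ => ⟨t, rfl, ht⟩⟩
      · exact ⟨none, fun h' => absurd h' hh⟩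
    choose f hf using h1
    have h2 : (J i).card ≤ (Finset.univ.image (some : Fin k → Option (Fin k))).card := by
      refine Finset.card_le_card_of_injOn f (fun h hh => ?_) (fun h hh h' hh' he => ?_)
      · obtain ⟨t, ht, _⟩ := hf h hh
        rw [ht]
        simp
      · obtain ⟨t, ht, e1⟩ := hf h hh
        obtain ⟨t', ht', e2⟩ := hf h' hh'
        have : t = t' := by
          have := ht.symm.trans (he.trans ht')
          exact Option.some.inj this
        subst this
        exact Subtype.ext (e1.trans e2.symm)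
    refine h2.trans (Finset.card_image_le.trans ?_)
    simp
  -- every nontrivial inequality in terms of the chosen representations
  have key : ∀ i t, a i t ≠ 0 → ∃ h ∈ J i, ∃ c : ℝ, c ≠ 0 ∧ a i t = c • α h ∧ b i t = c * β h ∧
      (s i h = true ↔ 0 < c) := by
    intro i t ht
    have hmem : pl (a i t) (b i t) ∈ Pl :=
      Finset.mem_image.2 ⟨(i, t), Finset.mem_filter.2 ⟨Finset.mem_univ _, ht⟩, rfl⟩
    refine ⟨⟨_, hmem⟩, Finset.mem_filter.2 ⟨Finset.mem_univ _, t, ht, rfl⟩, ?_⟩
    obtain ⟨c, hc, e1, e2⟩ := same_plane ht (hα ⟨_, hmem⟩) (hαβ ⟨_, hmem⟩)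
    refine ⟨c, hc, e1, e2, ?_⟩
    have hx : ∀ x ∈ P i, c * ⟪α ⟨_, hmem⟩, x⟫ ≤ c * β ⟨_, hmem⟩ := by
      intro x hx
      rw [hab i] at hx
      exact le_scaled e1 e2 (hx t)
    show decide (∀ x ∈ P i, ⟪α ⟨_, hmem⟩, x⟫ ≤ β ⟨_, hmem⟩) = true ↔ 0 < c
    rw [decide_eq_true_iff]
    constructor
    · intro h1
      by_contra h2
      have hc' : c < 0 := lt_of_le_of_ne (not_lt.1 h2) hc
      refine not_subset_plane (hint i) (hα ⟨_, hmem⟩) (β ⟨_, hmem⟩) fun x hx' => ?_
      exact le_antisymm (h1 x hx') (le_of_neg_mul hc' (hx x hx'))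
    · intro h1 x hx'
      exact le_of_mul_le_mul_left (hx x hx') h1
  -- recession directions
  have M1 : ∀ (v : EuclideanSpace ℝ (Fin d)), v ≠ 0 → ∀ σ : Pl → Bool,
      (∀ h, (0 < ⟪α h, v⟫ → σ h = false) ∧ (⟪α h, v⟫ < 0 → σ h = true)) → σ ∈ rest J s := by
    intro v hv σ hσ
    refine mem_rest.2 fun i hi => ?_
    obtain ⟨x, hx⟩ := hint i
    have hx' := interior_subset hx
    have hb := hbd i
    rw [hab i] at hb hx'
    refine not_bounded hx' hv (fun t => ?_) hb
    by_cases ht : a i t = 0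
    · rw [ht, inner_zero_left]
    · obtain ⟨h, hh, c, hc, e1, _, e3⟩ := key i t ht
      rw [e1, inner_smul_left]
      simp only [conj_trivial]
      have hs := hi h hh
      rcases lt_or_gt_of_ne hc with h1 | h1
      · have h2 : s i h = false := by
          by_contra h3
          have := e3.1 (by simpa using h3)
          linarith
        rw [h2] at hs
        have h4 : ¬ ⟪α h, v⟫ < 0 := fun h5 => by rw [(hσ h).2 h5] at hs; cases hs
        exact mul_nonpos_of_nonpos_of_nonneg h1.le (not_lt.1 h4)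
      · have h2 : s i h = true := e3.2 h1
        rw [h2] at hs
        have h4 : ¬ 0 < ⟪α h, v⟫ := fun h5 => by rw [(hσ h).1 h5] at hs; cases hs
        exact mul_nonpos_of_nonneg_of_nonpos h1.le (not_lt.1 h4)
  -- points on the wrong sides
  have M2 : ∀ (x : EuclideanSpace ℝ (Fin d)) (σ : Pl → Bool),
      (∀ h, (⟪α h, x⟫ < β h → σ h = false) ∧ (β h < ⟪α h, x⟫ → σ h = true)) → σ ∈ rest J s := by
    intro x σ hσ
    refine mem_rest.2 fun i hi => ?_
    obtain ⟨z, hz⟩ := hint i
    have hz' := interior_subset hz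
    have hb := hbd i
    rw [hab i] at hb hz'
    have hge : ∀ t, a i t ≠ 0 → b i t ≤ ⟪a i t, x⟫ := by
      intro t ht
      obtain ⟨h, hh, c, hc, e1, e2, e3⟩ := key i t ht
      rw [e1, e2, inner_smul_left]
      simp only [conj_trivial]
      have hs := hi h hh
      rcases lt_or_gt_of_ne hc with h1 | h1
      · have h2 : s i h = false := by
          by_contra h3
          have := e3.1 (by simpa using h3)
          linarith
        rw [h2] at hs
        have h4 : ¬ β h < ⟪α h, x⟫ := fun h5 => by rw [(hσ h).2 h5] at hs; cases hs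
        exact mul_le_mul_of_nonpos_left (not_lt.1 h4) h1.le
      · have h2 : s i h = true := e3.2 h1
        rw [h2] at hs
        have h4 : ¬ ⟪α h, x⟫ < β h := fun h5 => by rw [(hσ h).1 h5] at hs; cases hs
        exact mul_le_mul_of_nonneg_left (not_lt.1 h4) h1.le
    have hlt : ∀ t, a i t ≠ 0 → ⟪a i t, z⟫ < b i t := fun t ht =>
      strict_of_interior hz ht fun y hy => by rw [hab i] at hy; exact hy t
    by_cases hzx : z - x = 0
    · -- no nontrivial inequality
      have hall : ∀ t, a i t = 0 := by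
        intro t
        by_contra ht
        have h1 := hge t ht
        have h2 := hlt t ht
        rw [sub_eq_zero.1 hzx] at h2
        linarith
      have : Nonempty (Fin d) := ⟨⟨0, hd⟩⟩
      obtain ⟨v, hv⟩ := exists_ne (0 : EuclideanSpace ℝ (Fin d))
      exact not_bounded hz' hv (fun t => by rw [hall t, inner_zero_left]) hb
    · refine not_bounded hz' hzx (fun t => ?_) hb
      by_cases ht : a i t = 0
      · rw [ht, inner_zero_left]
      · rw [inner_sub_right]
        have h1 := hge t ht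
        have h2 := hlt t ht
        linarith
  -- full faces
  have hF : Faces d (rest J s) := by
    intro D hD
    by_cases hv : ∃ v : EuclideanSpace ℝ (Fin d), v ≠ 0 ∧ ∀ h ∈ D, ⟪α h, v⟫ = 0
    · obtain ⟨v, hv0, hvD⟩ := hv
      refine ⟨fun h => decide (⟪α h, v⟫ < 0), fun E hE => M1 v hv0 _ fun h => ?_⟩
      by_cases hh : h ∈ E
      · have := hvD h (hE hh)
        rw [this]
        simp
      · rw [flips_apply_notMem hh]
        constructor
        · intro h1
          simp [h1.le]
        · intro h1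
          simp [h1]
    · push Not at hv
      let L : EuclideanSpace ℝ (Fin d) →ₗ[ℝ] (D → ℝ) :=
        LinearMap.pi (fun h => (innerSL ℝ (α h.1)).toLinearMap)
      have hL : ∀ v (h : D), L v h = ⟪α h.1, v⟫ := fun v h => rfl
      have hinj : Function.Injective L := by
        rw [← LinearMap.ker_eq_bot, LinearMap.ker_eq_bot']
        intro v hv1
        by_contra hv0
        obtain ⟨h, hh, hne⟩ := hv v hv0
        exact hne (by rw [← hL v ⟨h, hh⟩, hv1]; rfl)
      have h1 : finrank ℝ (EuclideanSpace ℝ (Fin d)) = d := by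
        rw [finrank_euclideanSpace, Fintype.card_fin]
      have h2 : finrank ℝ (D → ℝ) = D.card := by
        rw [finrank_fintype_fun_eq_card, Fintype.card_coe]
      have h3 := LinearMap.finrank_le_finrank_of_injective hinj
      have hsurj : Function.Surjective L :=
        (LinearMap.injective_iff_surjective_of_finrank_eq_finrank (by omega)).1 hinj
      obtain ⟨x, hx⟩ := hsurj (fun h => β h.1)
      have hx' : ∀ h ∈ D, ⟪α h, x⟫ = β h := fun h hh => by
        rw [← hL x ⟨h, hh⟩, hx]
      refine ⟨fun h => decide (β h < ⟪α h, x⟫), fun E hE => M2 x _ fun h => ?_⟩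
      by_cases hh : h ∈ E
      · have := hx' h (hE hh)
        rw [this]
        simp
      · rw [flips_apply_notMem hh]
        constructor
        · intro h1
          simp [h1.le]
        · intro h1
          simp [h1]
  -- conflicts
  have hconf : ∀ i j, i ≠ j → ∃ h, h ∈ J i ∧ h ∈ J j ∧ s i h ≠ s j h := by
    intro i j hij
    obtain ⟨hdis, hpos⟩ := hN i j hij
    have hconv : ∀ i, Convex ℝ (P i) := by
      intro i
      rw [hab i]
      intro x hx y hy p q hp hq hpq t
      rw [inner_add_right, inner_smul_right, inner_smul_right]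
      have h1 := mul_le_mul_of_nonneg_left (hx t) hp
      have h2 := mul_le_mul_of_nonneg_left (hy t) hq
      have h3 : p * b i t + q * b i t = b i t := by rw [← add_mul, hpq, one_mul]
      linarith
    obtain ⟨f, u, hfi, hfj⟩ := geometric_hahn_banach_open_open (hconv i).interior isOpen_interior
      (hconv j).interior isOpen_interior hdis
    have hcl : ∀ i, P i ⊆ closure (interior (P i)) := by
      intro i
      rw [(hconv i).closure_interior_eq_closure_of_nonempty_interior (hint i)]
      exact subset_closure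
    have hfi' : ∀ x ∈ P i, f x ≤ u := fun x hx =>
      closure_minimal (s := interior (P i)) (t := {x | f x ≤ u}) (fun y hy => (hfi y hy).le)
        (isClosed_le f.continuous continuous_const) (hcl i hx)
    have hfj' : ∀ x ∈ P j, u ≤ f x := fun x hx =>
      closure_minimal (s := interior (P j)) (t := {x | u ≤ f x}) (fun y hy => (hfj y hy).le)
        (isClosed_le continuous_const f.continuous) (hcl j hx)
    obtain ⟨c, hcf⟩ := (InnerProductSpace.toDual ℝ (EuclideanSpace ℝ (Fin d))).surjective f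
    have hcx : ∀ x, f x = ⟪c, x⟫ := fun x => by
      rw [← hcf, InnerProductSpace.toDual_apply_apply]
    have hc : c ≠ 0 := by
      rintro rfl
      obtain ⟨x, hx⟩ := hint i
      obtain ⟨y, hy⟩ := hint j
      have h1 := hfi x hx
      have h2 := hfj y hy
      rw [hcx, inner_zero_left] at h1 h2
      linarith
    obtain ⟨t, ht, hpt⟩ := facet_of_sep (a := a i) (b := b i) (R := P j) (c := c) (u := u) hd hc
      (fun x hx => by rw [← hcx]; exact hfi' x (by rw [hab i]; exact hx))
      (fun x hx => by rw [← hcx]; exact hfj' x hx)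
      (by obtain ⟨x, hx⟩ := hint i
          have := interior_subset hx
          rw [hab i] at this
          exact ⟨x, this⟩)
      (by rw [← hab i]; exact hpos)
    obtain ⟨t', ht', hpt'⟩ := facet_of_sep (a := a j) (b := b j) (R := P i) (c := -c) (u := -u)
      hd (neg_ne_zero.2 hc)
      (fun x hx => by
        rw [inner_neg_left, ← hcx]
        have := hfj' x (by rw [hab j]; exact hx)
        linarith)
      (fun x hx => by
        rw [inner_neg_left, ← hcx]
        have := hfi' x hx
        linarith)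
      (by obtain ⟨x, hx⟩ := hint j
          have := interior_subset hx
          rw [hab j] at this
          exact ⟨x, this⟩)
      (by rw [← hab j, Set.inter_comm]; exact hpos)
    have hneg : pl (-c) (-u) = pl c u := by
      ext x
      show ⟪-c, x⟫ = -u ↔ ⟪c, x⟫ = u
      rw [inner_neg_left, neg_inj]
    have hmem : pl c u ∈ Pl :=
      Finset.mem_image.2 ⟨(i, t), Finset.mem_filter.2 ⟨Finset.mem_univ _, ht⟩, hpt⟩
    refine ⟨⟨_, hmem⟩, Finset.mem_filter.2 ⟨Finset.mem_univ _, t, ht, hpt.symm⟩,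
      Finset.mem_filter.2 ⟨Finset.mem_univ _, t', ht', (hpt'.trans hneg).symm⟩, ?_⟩
    obtain ⟨r, hr, e1, e2⟩ := same_plane hc (hα ⟨_, hmem⟩) (hαβ ⟨_, hmem⟩)
    have hi' : ∀ x ∈ P i, r * ⟪α ⟨_, hmem⟩, x⟫ ≤ r * β ⟨_, hmem⟩ := by
      intro x hx
      have := hfi' x hx
      rw [hcx] at this
      exact le_scaled e1 e2 this
    have hj' : ∀ x ∈ P j, r * β ⟨_, hmem⟩ ≤ r * ⟪α ⟨_, hmem⟩, x⟫ := by
      intro x hx
      have := hfj' x hx
      rw [hcx] at this
      exact ge_scaled e1 e2 this
    have hsi : s i ⟨_, hmem⟩ = true ↔ 0 < r := by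
      show decide (∀ x ∈ P i, ⟪α ⟨_, hmem⟩, x⟫ ≤ β ⟨_, hmem⟩) = true ↔ 0 < r
      rw [decide_eq_true_iff]
      constructor
      · intro h1
        by_contra h2
        have hr' : r < 0 := lt_of_le_of_ne (not_lt.1 h2) hr
        refine not_subset_plane (hint i) (hα ⟨_, hmem⟩) (β ⟨_, hmem⟩) fun x hx' => ?_
        exact le_antisymm (h1 x hx') (le_of_neg_mul hr' (hi' x hx'))
      · intro h1 x hx'
        exact le_of_mul_le_mul_left (hi' x hx') h1
    have hsj : s j ⟨_, hmem⟩ = true ↔ r < 0 := by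
      show decide (∀ x ∈ P j, ⟪α ⟨_, hmem⟩, x⟫ ≤ β ⟨_, hmem⟩) = true ↔ r < 0
      rw [decide_eq_true_iff]
      constructor
      · intro h1
        by_contra h2
        have hr' : 0 < r := lt_of_le_of_ne (not_lt.1 h2) hr.symm
        refine not_subset_plane (hint j) (hα ⟨_, hmem⟩) (β ⟨_, hmem⟩) fun x hx' => ?_
        exact le_antisymm (h1 x hx') (le_of_mul_le_mul_left (hj' x hx') hr')
      · intro h1 x hx'
        exact le_of_neg_mul h1 (hj' x hx')
    intro he
    rcases lt_or_gt_of_ne hr with h1 | h1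
    · have h2 : s j ⟨_, hmem⟩ = true := hsj.2 h1
      have h3 := hsi.1 (he.trans h2)
      linarith
    · have h2 : s i ⟨_, hmem⟩ = true := hsi.2 h1
      have h3 := hsj.1 (he.symm.trans h2)
      linarith
  have : Nonempty (Fin n) := ⟨⟨0, hn⟩⟩
  have := card_boxes k d J s hJ hconf hF
  rwa [Fintype.card_fin] at this

end Pool.Agent.W_bb8127_h82
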